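import Pool.Agent.Helper38.WY.Goals3
import Pool.Agent.Helper30.PB.XFIK

/-! Packet WY-F_FIK (project WY, MP_fc6b1e_nt): the functional of a Kummer extension, without condition
above `p`. -/

set_option autoImplicit false

namespace Pool.Agent.Helper31.WY

open NumberField Module IsDedekindDomain Polynomial
open Pool.Agent.Helper51.RP Pool.Agent.Helper42.RD Pool.Agent.Helper42.PP Pool.Agent.Helper42.PP1
open Pool.Agent.Helper42.PB Pool.Agent.Helper76.PB Pool.Agent.Helper30.PB Pool.Agent.Helper38.WY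
open scoped IntermediateField

theorem f_fik (h1 : F_FI) : F_FIK := by
  intro p hpF F _ _ _ ε hε Z hZ hpZ hPr b hbZ hbP
  have hp : p.Prime := hpF.out
  have hb0 : (b : F) ≠ 0 := b.ne_zero
  have hb : ¬ ∃ y : F, y ^ p = (b : F) := by
    rintro ⟨y, hy⟩
    have hy0 : y ≠ 0 := by
      rintro rfl
      rw [zero_pow hp.ne_zero] at hy
      exact hb0 hy.symm
    exact hbP ⟨Units.mk0 y hy0, Units.ext (by simpa using hy.symm)⟩
  obtain ⟨E, _, _, _, r, hfin, hr⟩ := Pool.Agent.Helper84.RSP.exists_ext p hp F (b : F) hb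
  have hFE : FiniteDimensional F E := by
    apply FiniteDimensional.of_finrank_pos
    rw [hfin]
    exact hp.pos
  obtain ⟨hG, -⟩ := Pool.Agent.Helper84.RSP.exists_sigma p hp ε (b : F) r hε hfin hr hb
  obtain ⟨-, ht⟩ := htop p hp (b : F) r hfin hr hb
  have hvp : ∀ v ∉ Z, v.valuation F (p : F) = 1 := by
    intro v hv
    refine le_antisymm ?_ ?_
    · have := v.valuation_le_one (K := F) (p : 𝓞 F)
      have h2 := congrArg (v.valuation F) (map_natCast (algebraMap (𝓞 F) F) p)
      exact h2 ▸ this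
    · by_contra h
      rw [not_le] at h
      exact hv (hpZ h)
  have hvb : ∀ v ∉ Z, v.valuation F (b : F) = 1 := fun v hv => hbZ v hv
  -- the valuation of `1 - ε`
  have hε1 : ∀ W : HeightOneSpectrum (𝓞 E), W.valuation E (1 - algebraMap F E ε) ≤ 1 ∧
      W.valuation E (1 - algebraMap F E ε) ≠ 0 := by
    intro W
    have heE : IsPrimitiveRoot (algebraMap F E ε) p :=
      hε.map_of_injective (algebraMap F E).injective
    refine ⟨val_int W _ (isIntegral_one.sub (heE.isIntegral hp.pos)), ?_⟩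
    rw [Valuation.ne_zero_iff, sub_ne_zero]
    exact (heE.ne_one hp.one_lt).symm
  have hpv : ∀ W : HeightOneSpectrum (𝓞 E), W.valuation E (p : E) ≤
      W.valuation E (1 - algebraMap F E ε) ^ (p - 1) := fun W =>
    val_p p hp (algebraMap F E ε) (hε.map_of_injective (algebraMap F E).injective) W
  have hunr : UnrZ F E Z := by
    intro v hv W hW x
    have hO : W.asIdeal.LiesOver v.asIdeal := ⟨hW.symm⟩
    have h3 := ram_one p hp (b : F) r hfin hr hb v (hvp v hv) (hvb v hv) W
    have h4 := v.valuation_liesOver (K := F) E W x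
    rw [h3, pow_one] at h4
    unfold ordv
    rw [h4]
  obtain ⟨s, hs1, hs2, -, hs4⟩ := h1 p F E hfin (fun _ => inferInstance) Z hZ hpZ hunr hPr
  refine ⟨s, hs1, hs2, fun w hw hLoc x hx => hs4 x fun v hv hov => ?_⟩
  have hvw : v = w := by
    by_contra h
    exact hov ((hx v hv).2 h)
  subst hvw
  refine ⟨hv, ?_⟩
  have hup := Pool.Agent.Helper16.PP.p_upr p F E ∅
  obtain ⟨W, hW⟩ := hup.2.2.2.2.2.1 v
  refine ⟨W, hW, ?_⟩
  obtain ⟨y, hy⟩ := hLoc
  have hO : W.asIdeal.LiesOver v.asIdeal := ⟨hW.symm⟩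
  have hev : v.asIdeal.ramificationIdx' W.asIdeal ≠ 0 :=
    Ideal.IsDedekindDomain.ramificationIdx'_ne_zero_of_liesOver W.asIdeal v.ne_bot
  have h8 := v.valuation_liesOver (K := F) E W ((b : F) * y ^ p - 1)
  have h3 := v.valuation_liesOver (K := F) E W (p : F)
  rw [map_natCast (algebraMap F E), hvp v hv, one_pow] at h3
  refine free_of p hp ε (b : F) r hε hb0 hr ht W y ?_
  refine lt_pow p hp _ (W.valuation E (p : E)) _ (hε1 W).2 (hε1 W).1 (hpv W) ?_ ?_
  · rw [← h8]
    exact pow_lt_one₀ zero_le hy hev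
  · rw [← h3, one_pow, ← h8]
    exact (pow_lt_one₀ zero_le hy hev).le

end Pool.Agent.Helper31.WY
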